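import Pool.Agent.H547.CV.Stm

set_option autoImplicit false

/-!
Statement `S_O` of project CV322 (helper824).
-/

namespace Pool.Agent.H824.CV322

open Finset Pool.Agent.R439.PL Pool.Agent.H547.CV

variable {p : ℕ} [hp : Fact p.Prime]

theorem O_nd {r j : ℕ} (hj0 : j ≠ 0) (hj : ¬ p ^ r ∣ j) : I p 1 (((p ^ r : ℕ) : ℚ) / j) := by
  obtain ⟨a, u, hu, rfl⟩ := Nat.exists_eq_pow_mul_and_not_dvd hj0 p hp.out.ne_one
  have ha : a < r := by
    by_contra h
    exact hj ((pow_dvd_pow p (by omega)).mul_right u)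
  have huu : U p (u : ℚ) := by
    have h : ¬ (p : ℤ) ∣ (u : ℤ) := fun h => hu (Int.natCast_dvd_natCast.1 h)
    exact_mod_cast U_int h
  refine ⟨(p : ℚ) ^ (r - a - 1) * (u : ℚ)⁻¹, mul_mem (pow_mem p_mem _) huu.2.2, ?_⟩
  have hp0 := p_ne (p := p)
  have hu0 := huu.1
  obtain ⟨c, rfl⟩ : ∃ c, r = a + 1 + c := ⟨r - a - 1, by omega⟩
  have e : a + 1 + c - a - 1 = c := by omega
  rw [e]
  push_cast
  field_simp
  ring

theorem O_fac {r j : ℕ} (hj0 : 0 < j) (hj : j < 2 * p ^ r) (hne : j ≠ p ^ r) :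
    EQ p 1 (2 * ((p ^ r : ℕ) : ℚ) / j - 1) (-1) := by
  have h1 : ¬ p ^ r ∣ j := by
    rintro ⟨c, rfl⟩
    have hc : c < 2 := by
      by_contra h
      have : p ^ r * 2 ≤ p ^ r * c := Nat.mul_le_mul_left _ (by omega)
      omega
    have hc0 : c ≠ 0 := by
      rintro rfl
      simp at hj0
    have : c = 1 := by omega
    subst this
    exact hne (mul_one _)
  have h2 := O_nd hj0.ne' h1
  have h3 : I p 1 (2 * (((p ^ r : ℕ) : ℚ) / j)) := h2.mulL (by exact_mod_cast nat_mem (p := p) 2)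
  refine ⟨?_, by exact_mod_cast int_mem (p := p) (-1), ?_⟩
  · rw [mul_div_assoc]
    exact sub_mem h3.mem (one_mem _)
  · have e : 2 * ((p ^ r : ℕ) : ℚ) / j - 1 - -1 = 2 * (((p ^ r : ℕ) : ℚ) / j) := by ring
    rw [e]
    exact h3

theorem O_bin (r : ℕ) : ∀ m : ℕ, m < 2 * p ^ r →
    EQ p 1 (((2 * p ^ r - 1).choose m : ℕ) : ℚ) (if m < p ^ r then (-1) ^ m else (-1) ^ (m + 1)) := by
  have hN : 0 < p ^ r := pow_pos hp.out.pos r
  intro m
  induction m with
  | zero =>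
    intro _
    rw [if_pos hN, Nat.choose_zero_right, pow_zero, Nat.cast_one]
    exact EQ.refl (one_mem _)
  | succ m ih =>
    intro hm
    have ih := ih (by omega)
    have h1 := Nat.choose_succ_right_eq (2 * p ^ r - 1) m
    have h2 : (((2 * p ^ r - 1).choose (m + 1) : ℕ) : ℚ) =
        (((2 * p ^ r - 1).choose m : ℕ) : ℚ) * (2 * ((p ^ r : ℕ) : ℚ) / ((m + 1 : ℕ) : ℚ) - 1) := by
      have h3 : (((2 * p ^ r - 1).choose (m + 1) : ℕ) : ℚ) * ((m + 1 : ℕ) : ℚ) =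
          (((2 * p ^ r - 1).choose m : ℕ) : ℚ) * ((2 * p ^ r - 1 - m : ℕ) : ℚ) := by
        exact_mod_cast h1
      have h4 : ((2 * p ^ r - 1 - m : ℕ) : ℚ) = 2 * ((p ^ r : ℕ) : ℚ) - ((m + 1 : ℕ) : ℚ) := by
        have : 2 * p ^ r - 1 - m + (m + 1) = 2 * p ^ r := by omega
        have h5 : ((2 * p ^ r - 1 - m : ℕ) : ℚ) + ((m + 1 : ℕ) : ℚ) = ((2 * p ^ r : ℕ) : ℚ) := by
          exact_mod_cast this
        rw [eq_sub_iff_add_eq, h5]
        push_cast
        ring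
      have h6 : ((m + 1 : ℕ) : ℚ) ≠ 0 := by positivity
      rw [h4] at h3
      field_simp
      linarith
    rw [h2]
    by_cases hmN : m + 1 = p ^ r
    · have e : 2 * ((p ^ r : ℕ) : ℚ) / ((m + 1 : ℕ) : ℚ) - 1 = 1 := by
        rw [hmN]
        have : ((p ^ r : ℕ) : ℚ) ≠ 0 := by positivity
        field_simp
        norm_num
      rw [e, mul_one, if_neg (by omega)]
      rw [if_pos (by omega)] at ih
      have e2 : (-1 : ℚ) ^ (m + 1 + 1) = (-1) ^ m := by ring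
      rw [e2]
      exact ih
    · have h5 := ih.mul (O_fac (p := p) (r := r) (j := m + 1) (by omega) hm hmN)
      by_cases hlt : m < p ^ r
      · rw [if_pos hlt] at h5
        rw [if_pos (by omega)]
        have e2 : (-1 : ℚ) ^ (m + 1) = (-1) ^ m * -1 := by ring
        rw [e2]
        exact h5
      · rw [if_neg hlt] at h5
        rw [if_neg (by omega)]
        have e2 : (-1 : ℚ) ^ (m + 1 + 1) = (-1) ^ (m + 1) * -1 := by ring
        rw [e2]
        exact h5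

theorem O_pow (r : ℕ) : EQ p 1 ((4 : ℚ) ^ p ^ r) 4 := by
  have h1 : (p : ℤ) ∣ (4 : ℤ) ^ p ^ r - 4 := by
    rw [← ZMod.intCast_zmod_eq_zero_iff_dvd]
    push_cast
    rw [ZMod.pow_card_pow, sub_self]
  obtain ⟨c, hc⟩ := h1
  have hm : (4 : ℚ) ∈ Zp p := by exact_mod_cast nat_mem (p := p) 4
  refine ⟨pow_mem hm _, hm, (c : ℚ), int_mem c, ?_⟩
  rw [pow_one]
  exact_mod_cast hc

theorem O_u {a : ℕ} (ha : ¬ p ∣ a) : U p (a : ℚ) := by
  have h : ¬ (p : ℤ) ∣ (a : ℤ) := fun h => ha (Int.natCast_dvd_natCast.1 h)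
  exact_mod_cast U_int h

theorem O_wN (hp2 : p ≠ 2) (r : ℕ) : EQ p 1 (w (p ^ r)) (1 / 2) := by
  have hN : 0 < p ^ r := pow_pos hp.out.pos r
  have hodd : Odd (p ^ r) := (hp.out.odd_of_ne_two hp2).pow
  obtain ⟨n, hn⟩ := hodd
  have h1 := O_bin (p := p) r (p ^ r - 1) (by omega)
  rw [if_pos (by omega)] at h1
  have h2 : (-1 : ℚ) ^ (p ^ r - 1) = 1 := by
    rw [hn, Nat.add_sub_cancel, pow_mul]
    norm_num
  rw [h2] at h1
  have h3 : (Nat.centralBinom (p ^ r) : ℚ) = 2 * (((2 * p ^ r - 1).choose (p ^ r - 1) : ℕ) : ℚ) := by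
    have h4 := Nat.add_one_mul_choose_eq (2 * p ^ r - 1) (p ^ r - 1)
    have e1 : 2 * p ^ r - 1 + 1 = 2 * p ^ r := by omega
    have e2 : p ^ r - 1 + 1 = p ^ r := by omega
    rw [e1, e2] at h4
    have h5 : 2 * (2 * p ^ r - 1).choose (p ^ r - 1) = (2 * p ^ r).choose (p ^ r) := by
      apply Nat.eq_of_mul_eq_mul_right hN
      rw [← h4]
      ring
    rw [Nat.centralBinom, ← h5]
    push_cast
    ring
  have hu4 : U p (4 : ℚ) := by
    have h6 : ¬ p ∣ 4 := by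
      intro h
      have : p ∣ 2 ^ 2 := by simpa using h
      have h7 := hp.out.dvd_of_dvd_pow this
      exact hp2 ((Nat.prime_dvd_prime_iff_eq hp.out Nat.prime_two).1 h7)
    exact_mod_cast O_u h6
  have h5 := (((EQ.refl (p := p) (k := 1) (x := 2) (by exact_mod_cast nat_mem (p := p) 2)).mul
    h1).div one_pos (O_pow (p := p) r) (hu4.pow _))
  unfold w
  rw [h3]
  have e : (2 : ℚ) * 1 / 4 = 1 / 2 := by norm_num
  rwa [e] at h5

theorem O_id {N l : ℕ} (hl : 0 < l) (hlN : l < N) :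
    (l : ℚ) * (w l * w (N - l)) / (N : ℚ) = rho N l * (((2 * N - 1).choose (2 * l - 1) : ℕ) : ℚ) := by
  have h4 := Nat.add_one_mul_choose_eq (2 * N - 1) (2 * l - 1)
  have e1 : 2 * N - 1 + 1 = 2 * N := by omega
  have e2 : 2 * l - 1 + 1 = 2 * l := by omega
  rw [e1, e2] at h4
  have hC : ((2 * N).choose (2 * l) : ℚ) ≠ 0 := by
    have : 0 < (2 * N).choose (2 * l) := Nat.choose_pos (by omega)
    positivity
  have hN : (N : ℚ) ≠ 0 := by
    have : 0 < N := by omega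
    positivity
  have h5 : 2 * (N : ℚ) * (((2 * N - 1).choose (2 * l - 1) : ℕ) : ℚ) =
      ((2 * N).choose (2 * l) : ℚ) * (2 * (l : ℚ)) := by
    exact_mod_cast h4
  unfold rho
  rw [div_mul_eq_mul_div, div_eq_div_iff hN hC]
  have h6 : (l : ℚ) * ((2 * N).choose (2 * l) : ℚ) =
      (N : ℚ) * (((2 * N - 1).choose (2 * l - 1) : ℕ) : ℚ) := by linarith
  calc (l : ℚ) * (w l * w (N - l)) * ((2 * N).choose (2 * l) : ℚ)
      = (w l * w (N - l)) * ((l : ℚ) * ((2 * N).choose (2 * l) : ℚ)) := by ring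
    _ = _ := by rw [h6]; ring

theorem O (hR : S_R) : S_O := by
  intro p _ r hp2 hr l hl hlN
  have hN : 0 < p ^ r := pow_pos (Fact.out : p.Prime).pos r
  have hodd : Odd (p ^ r) := ((Fact.out : p.Prime).odd_of_ne_two hp2).pow
  obtain ⟨n, hn⟩ := hodd
  have hw := O_wN (p := p) hp2 r
  have h1 := (hR p r hp2 hr).1 l hlN.le
  have h2 : EQ p 1 (rho (p ^ r) l) (w (p ^ r)) := by
    refine ⟨?_, hw.1, h1⟩
    have := add_mem h1.mem hw.1
    rwa [sub_add_cancel] at this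
  have h3 := O_bin (p := p) r (2 * l - 1) (by omega)
  have h4 := (h2.trans hw).mul h3
  rw [← O_id hl hlN] at h4
  refine (congrArg (I p 1) ?_).mp h4.2.2
  by_cases h : 2 * l < p ^ r
  · rw [if_pos h, if_pos (by omega)]
    have e : (-1 : ℚ) ^ (2 * l - 1) = -1 := by
      obtain ⟨k, rfl⟩ : ∃ k, l = k + 1 := ⟨l - 1, by omega⟩
      have : 2 * (k + 1) - 1 = 2 * k + 1 := by omega
      rw [this, pow_succ, pow_mul]
      norm_num
    rw [e]
    ring
  · rw [if_neg h, if_neg (by omega)]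
    have e : (-1 : ℚ) ^ (2 * l - 1 + 1) = 1 := by
      have : 2 * l - 1 + 1 = 2 * l := by omega
      rw [this, pow_mul]
      norm_num
    rw [e, mul_one]

end Pool.Agent.H824.CV322
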